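import Pool.Agent.Q120.FA.Stm6

/-!
# Project FA (helper120), jobs W10 and W11: weighted logarithmic means
-/

set_option autoImplicit false

namespace Pool.Agent.Q285.FA

open Filter Topology Asymptotics
open Pool.Agent.Q120.FA

theorem w_nonneg (N : ℕ) : 0 ≤ Real.log N / N :=
  div_nonneg (Real.log_natCast_nonneg N) (Nat.cast_nonneg N)

theorem sum_shift (F : ℕ → ℝ) (X : ℕ) :
    ∑ N ∈ Finset.Icc 1 X, F N = ∑ i ∈ Finset.range X, F (i + 1) := by
  induction X with
  | zero => simp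
  | succ n ih => rw [Finset.sum_Icc_succ_top (by omega), ih, Finset.sum_range_succ]

theorem half_le_log (N : ℕ) (hN : 1 ≤ N) : (1 / 2 : ℝ) ≤ Real.log ((N : ℝ) + 1) := by
  have h1 : Real.log 2 ≤ Real.log ((N : ℝ) + 1) := by
    refine Real.log_le_log (by norm_num) ?_
    have : (1 : ℝ) ≤ N := by exact_mod_cast hN
    linarith
  have h2 := Real.log_two_gt_d9
  linarith

theorem tendsto_sum_w :
    Tendsto (fun X : ℕ => ∑ i ∈ Finset.range X, Real.log ((i + 1 : ℕ) : ℝ) / ((i + 1 : ℕ) : ℝ)) atTop atTop := by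
  have h1 := Real.tendsto_sum_range_one_div_nat_succ_atTop
  have h2 : Tendsto (fun X : ℕ => (1 / 2 : ℝ) * (∑ i ∈ Finset.range X, (1 / ((i : ℝ) + 1))) + (-(1 / 2))) atTop atTop :=
    tendsto_atTop_add_const_right _ _ (h1.const_mul_atTop (by norm_num))
  refine tendsto_atTop_mono (fun X => ?_) h2
  induction X with
  | zero => simp
  | succ n ih =>
    rw [Finset.sum_range_succ, Finset.sum_range_succ]
    rcases Nat.eq_zero_or_pos n with rfl | hn
    · simp
    · have h3 := half_le_log n hn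
      have h4 : (0 : ℝ) < (n : ℝ) + 1 := by positivity
      have h5 : (1 / 2 : ℝ) * (1 / ((n : ℝ) + 1)) ≤ Real.log ((n + 1 : ℕ) : ℝ) / ((n + 1 : ℕ) : ℝ) := by
        push_cast
        rw [mul_one_div]
        exact div_le_div_of_nonneg_right h3 h4.le
      linarith

theorem diff_bound (N : ℕ) (hN : 1 ≤ N) :
    |(Real.log ((N + 1 : ℕ) : ℝ) ^ 2 / 2 - Real.log (N : ℝ) ^ 2 / 2) - Real.log ((N + 1 : ℕ) : ℝ) / ((N + 1 : ℕ) : ℝ)| ≤
      3 / N * (Real.log ((N + 1 : ℕ) : ℝ) / ((N + 1 : ℕ) : ℝ)) := by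
  push_cast
  have hx : (1 : ℝ) ≤ N := by exact_mod_cast hN
  generalize hxx : (N : ℝ) = x at hx ⊢
  have hL : (1 / 2 : ℝ) ≤ Real.log (x + 1) := by
    rw [← hxx]; exact half_le_log N hN
  have hx0 : 0 < x := by linarith
  have hx1 : 0 < x + 1 := by linarith
  have hd : Real.log ((x + 1) / x) = Real.log (x + 1) - Real.log x := Real.log_div hx1.ne' hx0.ne'
  have hy : 0 < (x + 1) / x := by positivity
  have hup : Real.log (x + 1) - Real.log x ≤ 1 / x := by
    have := Real.log_le_sub_one_of_pos hy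
    rw [hd] at this
    have h2 : (x + 1) / x - 1 = 1 / x := by field_simp; ring
    linarith
  have hlo : 1 / (x + 1) ≤ Real.log (x + 1) - Real.log x := by
    have := Real.one_sub_inv_le_log_of_pos hy
    rw [hd] at this
    have h2 : 1 - ((x + 1) / x)⁻¹ = 1 / (x + 1) := by field_simp; ring
    linarith
  generalize Real.log (x + 1) = L at *
  obtain ⟨δ, hδ⟩ : ∃ δ, δ = L - Real.log x := ⟨_, rfl⟩
  have hlx : Real.log x = L - δ := by linarith
  rw [hlx] at hup hlo ⊢
  obtain ⟨u, hu⟩ : ∃ u, u = 1 / x := ⟨_, rfl⟩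
  obtain ⟨t, ht⟩ : ∃ t, t = 1 / (x + 1) := ⟨_, rfl⟩
  have hut : u - t = u * t := by rw [hu, ht]; field_simp; ring
  have ht0 : 0 < t := by rw [ht]; positivity
  have hu0 : 0 < u := by rw [hu]; positivity
  have hu2 : u ≤ 2 * t := by
    rw [hu, ht, mul_one_div, div_le_div_iff₀ hx0 hx1]
    linarith
  have e1 : L / (x + 1) = t * L := by rw [ht]; ring
  have e2 : 3 / x = 3 * u := by rw [hu]; ring
  rw [e1, e2]
  have h1 : L - (L - δ) ≤ u := by rw [hu]; exact hup
  have h2 : t ≤ L - (L - δ) := by rw [ht]; exact hlo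
  have h1' : δ ≤ u := by linarith
  have h2' : t ≤ δ := by linarith
  have hδ0 : 0 < δ := lt_of_lt_of_le ht0 h2'
  have htL : 0 < t * L := mul_pos ht0 (by linarith)
  have e3 : L ^ 2 / 2 - (L - δ) ^ 2 / 2 - t * L = (δ - t) * L - δ ^ 2 / 2 := by ring
  rw [e3, abs_le]
  constructor
  · have a1 : 0 ≤ (δ - t) * L := mul_nonneg (by linarith) (by linarith)
    have a2 : δ ^ 2 ≤ u ^ 2 := pow_le_pow_left₀ hδ0.le h1' 2
    have a3 : u ≤ 6 * (t * L) := by
      have : t * (1 / 2) ≤ t * L := mul_le_mul_of_nonneg_left hL ht0.le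
      linarith
    have a4 : u * u ≤ u * (6 * (t * L)) := mul_le_mul_of_nonneg_left a3 hu0.le
    nlinarith
  · have a1 : (δ - t) * L ≤ (u - t) * L := mul_le_mul_of_nonneg_right (by linarith) (by linarith)
    rw [hut] at a1
    have a2 : 0 ≤ δ ^ 2 := sq_nonneg δ
    have a3 : 0 < u * (t * L) := mul_pos hu0 htL
    nlinarith

theorem log_sq_tendsto : Tendsto (fun X : ℕ => Real.log (X : ℝ) ^ 2) atTop atTop :=
  (tendsto_pow_atTop two_ne_zero).comp (Real.tendsto_log_atTop.comp tendsto_natCast_atTop_atTop)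

theorem mean_w :
    Tendsto (fun X : ℕ => (∑ N ∈ Finset.Icc 1 X, Real.log N / N) / Real.log X ^ 2) atTop (𝓝 (1 / 2)) := by
  have h1 : (fun i : ℕ => (Real.log ((i + 1 : ℕ) : ℝ) ^ 2 / 2 - Real.log (i : ℝ) ^ 2 / 2) -
      Real.log ((i + 1 : ℕ) : ℝ) / ((i + 1 : ℕ) : ℝ)) =o[atTop]
      fun i : ℕ => Real.log ((i + 1 : ℕ) : ℝ) / ((i + 1 : ℕ) : ℝ) := by
    rw [isLittleO_iff]
    intro c hc
    obtain ⟨M, hM⟩ := exists_nat_gt (3 / c)
    filter_upwards [eventually_ge_atTop (max M 1)] with N hN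
    have hN1 : 1 ≤ N := (le_max_right _ _).trans hN
    have hNM : (M : ℝ) ≤ N := by exact_mod_cast (le_max_left _ _).trans hN
    have hN0 : (0 : ℝ) < N := by exact_mod_cast hN1
    rw [Real.norm_eq_abs, Real.norm_of_nonneg (w_nonneg (N + 1))]
    refine (diff_bound N hN1).trans (mul_le_mul_of_nonneg_right ?_ (w_nonneg (N + 1)))
    rw [div_le_iff₀ hN0]
    have h3 : 3 / c < N := lt_of_lt_of_le hM hNM
    rw [div_lt_iff₀ hc] at h3
    linarith
  have h2 := IsLittleO.sum_range h1 (fun i => w_nonneg (i + 1)) tendsto_sum_w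
  have h3 : ∀ X : ℕ, ∑ i ∈ Finset.range X, ((Real.log ((i + 1 : ℕ) : ℝ) ^ 2 / 2 - Real.log (i : ℝ) ^ 2 / 2) -
      Real.log ((i + 1 : ℕ) : ℝ) / ((i + 1 : ℕ) : ℝ)) = Real.log (X : ℝ) ^ 2 / 2 -
      ∑ i ∈ Finset.range X, Real.log ((i + 1 : ℕ) : ℝ) / ((i + 1 : ℕ) : ℝ) := by
    intro X
    rw [Finset.sum_sub_distrib, Finset.sum_range_sub (fun i : ℕ => Real.log (i : ℝ) ^ 2 / 2)]
    simp
  have h4 : IsEquivalent atTop (fun X : ℕ => Real.log (X : ℝ) ^ 2 / 2)
      (fun X : ℕ => ∑ i ∈ Finset.range X, Real.log ((i + 1 : ℕ) : ℝ) / ((i + 1 : ℕ) : ℝ)) := by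
    refine h2.congr (fun X => ?_) (fun X => rfl)
    rw [h3 X]
    rfl
  have h5 : ∀ᶠ X : ℕ in atTop, Real.log (X : ℝ) ^ 2 / 2 ≠ 0 := by
    filter_upwards [log_sq_tendsto.eventually_gt_atTop 0] with X hX
    positivity
  have h6 := (isEquivalent_iff_tendsto_one h5).1 h4.symm
  have h7 := h6.mul_const (1 / 2)
  rw [one_mul] at h7
  refine h7.congr (fun X => ?_)
  rw [sum_shift (fun N : ℕ => Real.log N / N)]
  simp only [Pi.div_apply]
  rw [div_div_eq_mul_div, mul_div_right_comm, mul_assoc]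
  norm_num

theorem little (a h : ℕ → ℝ) (s : ℝ) (ha : ∀ N, 0 ≤ a N) (hh : Tendsto h atTop (𝓝 0))
    (H : Tendsto (fun X : ℕ => (∑ N ∈ Finset.Icc 1 X, Real.log N / N * a N) / Real.log X ^ 2) atTop (𝓝 s)) :
    Tendsto (fun X : ℕ => (∑ N ∈ Finset.Icc 1 X, Real.log N / N * (h N * a N)) / Real.log X ^ 2) atTop (𝓝 0) := by
  have h1 : (fun i : ℕ => Real.log ((i + 1 : ℕ) : ℝ) / ((i + 1 : ℕ) : ℝ) * (h (i + 1) * a (i + 1))) =o[atTop]
      fun i : ℕ => Real.log ((i + 1 : ℕ) : ℝ) / ((i + 1 : ℕ) : ℝ) * a (i + 1) +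
        Real.log ((i + 1 : ℕ) : ℝ) / ((i + 1 : ℕ) : ℝ) := by
    rw [isLittleO_iff]
    intro c hc
    have hh1 : Tendsto (fun i : ℕ => h (i + 1)) atTop (𝓝 0) := hh.comp (tendsto_add_atTop_nat 1)
    have hh2 : ∀ᶠ i : ℕ in atTop, ‖h (i + 1)‖ < c := by
      have := hh1.norm
      rw [norm_zero] at this
      exact this.eventually_lt_const hc
    filter_upwards [hh2] with i hi
    have hw := w_nonneg (i + 1)
    have hwa : 0 ≤ Real.log ((i + 1 : ℕ) : ℝ) / ((i + 1 : ℕ) : ℝ) * a (i + 1) := mul_nonneg hw (ha _)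
    rw [Real.norm_of_nonneg (add_nonneg hwa hw), norm_mul, norm_mul, Real.norm_of_nonneg hw,
      Real.norm_of_nonneg (ha (i + 1))]
    have h2 : ‖h (i + 1)‖ * (Real.log ((i + 1 : ℕ) : ℝ) / ((i + 1 : ℕ) : ℝ) * a (i + 1)) ≤
        c * (Real.log ((i + 1 : ℕ) : ℝ) / ((i + 1 : ℕ) : ℝ) * a (i + 1)) :=
      mul_le_mul_of_nonneg_right hi.le hwa
    have h3 : 0 ≤ c * (Real.log ((i + 1 : ℕ) : ℝ) / ((i + 1 : ℕ) : ℝ)) := mul_nonneg hc.le hw
    calc Real.log ((i + 1 : ℕ) : ℝ) / ((i + 1 : ℕ) : ℝ) * (‖h (i + 1)‖ * a (i + 1))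
        = ‖h (i + 1)‖ * (Real.log ((i + 1 : ℕ) : ℝ) / ((i + 1 : ℕ) : ℝ) * a (i + 1)) := by ring
      _ ≤ c * (Real.log ((i + 1 : ℕ) : ℝ) / ((i + 1 : ℕ) : ℝ) * a (i + 1)) := h2
      _ ≤ c * (Real.log ((i + 1 : ℕ) : ℝ) / ((i + 1 : ℕ) : ℝ) * a (i + 1) +
          Real.log ((i + 1 : ℕ) : ℝ) / ((i + 1 : ℕ) : ℝ)) := by rw [mul_add]; linarith
  have hg0 : ∀ i : ℕ, 0 ≤ Real.log ((i + 1 : ℕ) : ℝ) / ((i + 1 : ℕ) : ℝ) * a (i + 1) +
        Real.log ((i + 1 : ℕ) : ℝ) / ((i + 1 : ℕ) : ℝ) := fun i =>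
    add_nonneg (mul_nonneg (w_nonneg _) (ha _)) (w_nonneg _)
  have hgT : Tendsto (fun X : ℕ => ∑ i ∈ Finset.range X, (Real.log ((i + 1 : ℕ) : ℝ) / ((i + 1 : ℕ) : ℝ) * a (i + 1) +
        Real.log ((i + 1 : ℕ) : ℝ) / ((i + 1 : ℕ) : ℝ))) atTop atTop := by
    refine tendsto_atTop_mono (fun X => ?_) tendsto_sum_w
    refine Finset.sum_le_sum fun i _ => ?_
    have := mul_nonneg (w_nonneg (i + 1)) (ha (i + 1))
    linarith
  have h2 := IsLittleO.sum_range h1 hg0 hgT
  have h3 : Tendsto (fun X : ℕ => (∑ i ∈ Finset.range X, (Real.log ((i + 1 : ℕ) : ℝ) / ((i + 1 : ℕ) : ℝ) * a (i + 1) +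
        Real.log ((i + 1 : ℕ) : ℝ) / ((i + 1 : ℕ) : ℝ))) / Real.log X ^ 2) atTop (𝓝 (s + 1 / 2)) := by
    refine (H.add mean_w).congr (fun X => ?_)
    rw [Finset.sum_add_distrib, add_div, sum_shift (fun N : ℕ => Real.log N / N * a N),
      sum_shift (fun N : ℕ => Real.log N / N)]
  have h4 := h2.tendsto_div_nhds_zero
  have h5 := h4.mul h3
  rw [zero_mul] at h5
  refine h5.congr' ?_
  filter_upwards [hgT.eventually_gt_atTop 0] with X hX
  rw [sum_shift (fun N : ℕ => Real.log N / N * (h N * a N)), div_mul_div_cancel₀ hX.ne']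

/-- **W11** -/
theorem t_W11 : J_W11 := by
  refine ⟨mean_w, fun a g S G ha hg H => ?_, fun a ha hinf => ?_⟩
  · have h1 : Tendsto (fun N => g N - G) atTop (𝓝 0) := by
      have := hg.sub_const G
      rwa [sub_self] at this
    have h2 := little a (fun N => g N - G) (S / 2) ha h1 H
    have h3 := h2.add (H.const_mul G)
    have e : 0 + G * (S / 2) = G * S / 2 := by ring
    rw [e] at h3
    refine h3.congr (fun X => ?_)
    rw [← mul_div_assoc, ← add_div, Finset.mul_sum, ← Finset.sum_add_distrib]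
    refine congrArg (fun z => z / Real.log (X : ℝ) ^ 2) (Finset.sum_congr rfl fun N _ => ?_)
    ring
  · rw [tendsto_atTop]
    intro M
    obtain ⟨N0, hN0⟩ := eventually_atTop.1 (hinf.eventually_ge_atTop (2 * (|M| + 1)))
    have hK : (0 : ℝ) < 2 * (|M| + 1) := by positivity
    generalize hKK : 2 * (|M| + 1) = K at hN0 hK
    obtain ⟨C, hC⟩ : ∃ C : ℝ, C = ∑ N ∈ Finset.range N0, K * (Real.log N / N) := ⟨_, rfl⟩
    have h1 : ∀ X : ℕ, K * (∑ N ∈ Finset.Icc 1 X, Real.log N / N) - C ≤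
        ∑ N ∈ Finset.Icc 1 X, Real.log N / N * a N := by
      intro X
      have h2 : ∀ N : ℕ, K * (Real.log N / N) - (if N < N0 then K * (Real.log N / N) else 0) ≤
          Real.log N / N * a N := by
        intro N
        have hw := w_nonneg N
        split_ifs with hN
        · rw [sub_self]
          exact mul_nonneg hw (ha N)
        · rw [sub_zero, mul_comm]
          exact mul_le_mul_of_nonneg_left (hN0 N (not_lt.1 hN)) hw
      have h3 := Finset.sum_le_sum (fun N (_ : N ∈ Finset.Icc 1 X) => h2 N)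
      rw [Finset.sum_sub_distrib, ← Finset.mul_sum, ← Finset.sum_filter] at h3
      have h4 : ∑ N ∈ (Finset.Icc 1 X).filter (fun N => N < N0), K * (Real.log N / N) ≤ C := by
        rw [hC]
        refine Finset.sum_le_sum_of_subset_of_nonneg ?_ (fun N _ _ => mul_nonneg hK.le (w_nonneg N))
        intro N hN
        exact Finset.mem_range.2 (Finset.mem_filter.1 hN).2
      linarith
    have h5 : Tendsto (fun X : ℕ => K * ((∑ N ∈ Finset.Icc 1 X, Real.log N / N) / Real.log X ^ 2) -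
        C / Real.log X ^ 2) atTop (𝓝 (K * (1 / 2) - 0)) :=
      (mean_w.const_mul K).sub (tendsto_const_nhds.div_atTop log_sq_tendsto)
    have h6 : M < K * (1 / 2) - 0 := by
      rw [← hKK]
      have := le_abs_self M
      linarith
    filter_upwards [h5.eventually_const_lt h6, log_sq_tendsto.eventually_gt_atTop 0] with X hX hX2
    refine hX.le.trans ?_
    rw [← mul_div_assoc, ← sub_div]
    exact div_le_div_of_nonneg_right (h1 X) hX2.le

open scoped Classical in
/-- **W10** -/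
theorem t_W10 : J_W10 := by
  intro a S ha hS H ε hε
  -- the negative part
  have hn : Tendsto (fun N : ℕ => max (S - a N) 0) atTop (𝓝 0) := by
    rw [Metric.tendsto_atTop]
    intro η hη
    obtain ⟨N0, hN0⟩ := eventually_atTop.1 (hS (S - η / 2) (by linarith))
    refine ⟨N0, fun N hN => ?_⟩
    have h1 := hN0 N hN
    rw [Real.dist_eq, sub_zero, abs_of_nonneg (le_max_right _ _)]
    exact max_lt (by linarith) hη
  have h1 := little (fun _ => 1) (fun N => max (S - a N) 0) (1 / 2) (fun _ => zero_le_one) hn (by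
    refine mean_w.congr (fun X => ?_)
    simp only [mul_one])
  have h2 : Tendsto (fun X : ℕ => (∑ N ∈ Finset.Icc 1 X, Real.log N / N * (a N - S + max (S - a N) 0)) /
      Real.log X ^ 2) atTop (𝓝 0) := by
    have h3 := (H.sub (mean_w.const_mul S)).add h1
    have e : S / 2 - S * (1 / 2) + 0 = 0 := by ring
    rw [e] at h3
    refine h3.congr (fun X => ?_)
    rw [← mul_div_assoc, ← sub_div, ← add_div, Finset.mul_sum, ← Finset.sum_sub_distrib,
      ← Finset.sum_add_distrib]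
    refine congrArg (fun z => z / Real.log (X : ℝ) ^ 2) (Finset.sum_congr rfl fun N _ => ?_)
    ring
  -- the weighted sum over the set
  have h4 : ∀ N : ℕ, (if S + ε < a N then Real.log N / N else 0) ≤
      1 / ε * (Real.log N / N * (a N - S + max (S - a N) 0)) := by
    intro N
    have hw := w_nonneg N
    have hp : 0 ≤ a N - S + max (S - a N) 0 := by
      have := le_max_left (S - a N) 0
      linarith
    split_ifs with hN
    · have h5 : ε ≤ a N - S + max (S - a N) 0 := by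
        have := le_max_right (S - a N) 0
        linarith
      have h6 : Real.log N / N * ε ≤ Real.log N / N * (a N - S + max (S - a N) 0) :=
        mul_le_mul_of_nonneg_left h5 hw
      rw [one_div, inv_mul_eq_div, le_div_iff₀ hε]
      exact h6
    · positivity
  have hE : Tendsto (fun X : ℕ => (∑ N ∈ Finset.Icc 1 X, (if S + ε < a N then Real.log N / N else 0)) /
      Real.log X ^ 2) atTop (𝓝 0) := by
    have h5 := h2.const_mul (1 / ε)
    rw [mul_zero] at h5
    refine squeeze_zero' (Eventually.of_forall fun X => ?_) (Eventually.of_forall fun X => ?_) h5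
    · refine div_nonneg (Finset.sum_nonneg fun N _ => ?_) (sq_nonneg _)
      split_ifs
      · exact w_nonneg N
      · exact le_rfl
    · rw [← mul_div_assoc, Finset.mul_sum]
      exact div_le_div_of_nonneg_right (Finset.sum_le_sum fun N _ => h4 N) (sq_nonneg _)
  -- the logarithmic density
  have hlog : Tendsto (fun X : ℕ => Real.log (X : ℝ)) atTop atTop :=
    Real.tendsto_log_atTop.comp tendsto_natCast_atTop_atTop
  rw [Metric.tendsto_atTop]
  intro η hη
  obtain ⟨δ, hδ0, hδ1, hδη⟩ : ∃ δ : ℝ, 0 < δ ∧ δ < 1 ∧ δ ≤ η / 3 :=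
    ⟨min (1 / 2) (η / 3), by positivity, (min_le_left _ _).trans_lt (by norm_num), min_le_right _ _⟩
  have h5 : ∀ᶠ X : ℕ in atTop, 3 / η < Real.log (X : ℝ) := hlog.eventually_gt_atTop _
  have h6 : ∀ᶠ X : ℕ in atTop, (∑ N ∈ Finset.Icc 1 X, (if S + ε < a N then Real.log N / N else 0)) /
      Real.log X ^ 2 < δ * (η / 3) := hE.eventually_lt_const (by positivity)
  obtain ⟨X0, hX0⟩ := eventually_atTop.1 (h5.and (h6.and (eventually_ge_atTop 1)))
  refine ⟨X0, fun X hX => ?_⟩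
  obtain ⟨h7, h8, h9⟩ := hX0 X hX
  have hl : 0 < Real.log (X : ℝ) := lt_trans (by positivity) h7
  have hX1 : (1 : ℝ) ≤ X := by exact_mod_cast h9
  have hXp : (0 : ℝ) < X := by linarith
  obtain ⟨Y, hY⟩ : ∃ Y : ℕ, Y = ⌊(X : ℝ) ^ δ⌋₊ := ⟨_, rfl⟩
  have hy1 : (1 : ℝ) ≤ (X : ℝ) ^ δ := Real.one_le_rpow hX1 hδ0.le
  have hharm : ∑ N ∈ Finset.Icc 1 Y, (1 / (N : ℝ)) ≤ 1 + δ * Real.log X := by
    have h10 := harmonic_floor_le_one_add_log ((X : ℝ) ^ δ) hy1
    rw [← hY, harmonic_eq_sum_Icc, Real.log_rpow hXp] at h10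
    push_cast at h10
    simpa only [one_div] using h10
  have hpt : ∀ N ∈ Finset.Icc 1 X, (if S + ε < a N then 1 / (N : ℝ) else 0) ≤
      (if N ≤ Y then 1 / (N : ℝ) else 0) +
        1 / (δ * Real.log X) * (if S + ε < a N then Real.log N / N else 0) := by
    intro N hN
    have hN1 : 1 ≤ N := (Finset.mem_Icc.1 hN).1
    have hN0 : (0 : ℝ) < N := by exact_mod_cast hN1
    have hw := w_nonneg N
    have hdl : 0 < δ * Real.log X := mul_pos hδ0 hl
    have hB : 0 ≤ 1 / (δ * Real.log X) * (if S + ε < a N then Real.log N / N else 0) := by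
      refine mul_nonneg (by positivity) ?_
      split_ifs
      · exact hw
      · exact le_rfl
    by_cases hNY : N ≤ Y
    · rw [if_pos hNY]
      have : (if S + ε < a N then 1 / (N : ℝ) else 0) ≤ 1 / (N : ℝ) := by
        split_ifs
        · exact le_rfl
        · positivity
      linarith
    · rw [if_neg hNY, zero_add]
      split_ifs
      · have h11 : (X : ℝ) ^ δ < N := by
          rw [hY, not_le] at hNY
          exact (Nat.floor_lt (by positivity)).1 hNY
        have h12 : δ * Real.log X ≤ Real.log N := by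
          rw [← Real.log_rpow hXp]
          exact Real.log_le_log (by positivity) h11.le
        rw [one_div_mul_eq_div, le_div_iff₀ hdl, one_div_mul_eq_div]
        exact div_le_div_of_nonneg_right h12 hN0.le
      · rw [mul_zero]
  have hsum := Finset.sum_le_sum hpt
  rw [Finset.sum_add_distrib, ← Finset.mul_sum] at hsum
  have hfirst : ∑ N ∈ Finset.Icc 1 X, (if N ≤ Y then 1 / (N : ℝ) else 0) ≤ 1 + δ * Real.log X := by
    rw [← Finset.sum_filter]
    refine le_trans (Finset.sum_le_sum_of_subset_of_nonneg ?_ (fun N _ _ => by positivity)) hharm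
    intro N hN
    obtain ⟨h13, h14⟩ := Finset.mem_filter.1 hN
    exact Finset.mem_Icc.2 ⟨(Finset.mem_Icc.1 h13).1, h14⟩
  have hsecond : 1 / (δ * Real.log X) * (∑ N ∈ Finset.Icc 1 X, (if S + ε < a N then Real.log N / N else 0)) <
      Real.log X * (η / 3) := by
    rw [div_lt_iff₀ (by positivity)] at h8
    rw [one_div_mul_eq_div, div_lt_iff₀ (mul_pos hδ0 hl)]
    calc _ < δ * (η / 3) * Real.log X ^ 2 := h8
      _ = Real.log X * (η / 3) * (δ * Real.log X) := by ring
  have hone : 1 < Real.log X * (η / 3) := by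
    rw [div_lt_iff₀ hη] at h7
    linarith
  have hdel : δ * Real.log X ≤ Real.log X * (η / 3) := by
    rw [mul_comm]
    exact mul_le_mul_of_nonneg_left hδη hl.le
  rw [Real.dist_eq, sub_zero, Finset.sum_filter, abs_of_nonneg (div_nonneg (Finset.sum_nonneg fun N _ => by
    split_ifs
    · positivity
    · exact le_rfl) hl.le), div_lt_iff₀ hl]
  linarith

end Pool.Agent.Q285.FA
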